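import Pool.Agent.V1188.FPC
import Pool.Agent.V1188.FP9

/-!
# Not every number below the maximum is a fixed-point proportion (MP_7bf935_al, Q2)

`G` is a level-transitive group of automorphisms of the `d`-regular rooted tree, `FPP(G)` its fixed-point proportion, `α_d` the
largest one. For every prime power `d ≥ 3` there is an interval inside `[0, α_d]` which contains no fixed-point proportion: the
left neighbourhood `((d-2)/(d-1) - ε_d, (d-2)/(d-1))` of `(d-2)/(d-1) < α_d = (d²-d-1)/(d²-1)`, with the explicit width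
`ε_d = 1 / ((d-1) (d!)^(d+1))`. So not every `α ∈ [0, α_d]` occurs, and for `d ≥ 3` which is not a
prime power the same interval is free (but lies above `α_d`).

The trees are the trees of the finite words over `Fin d`; `AutT (Fin d)` is the group of the permutations of the words which
preserve lengths and initial segments, `lev (Fin d) n` its action on the words of length `n`.
-/

set_option autoImplicit false

namespace Pool.Agent.Results.MP_7bf935_al.GapInTheValues

open Filter V1188.FP

/-- the set of the fixed-point proportions of the level-transitive groups of automorphisms of the `d`-regular rooted tree -/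
def fppSet (d : ℕ) : Set ℝ :=
  {c | ∃ G : Subgroup (AutT (Fin d)), LevelTransitive G ∧ IsFPP G c}

theorem main (d : ℕ) (hd3 : 3 ≤ d) (c : ℝ) (hc : c ∈ fppSet d) :
    c ≤ thr d - eps d ∨ thr d ≤ c := by
  have hne : Nonempty (Fin d) := ⟨⟨0, by omega⟩⟩
  obtain ⟨G, hG, hc⟩ := hc
  have hfam : fpRatio G = (famOf G hG).P := by
    funext n; exact ratio_eq G (famOf G hG) n rfl
  unfold IsFPP at hc
  rw [hfam] at hc
  exact gap (famOf G hG) d (by simp) hd3 hc

theorem max_eq (d : ℕ) (hd2 : 2 ≤ d) (hpp : IsPrimePow d) :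
    IsGreatest (fppSet d) (((d : ℝ) ^ 2 - d - 1) / ((d : ℝ) ^ 2 - 1)) := by
  have hne : Nonempty (Fin d) := ⟨⟨0, by omega⟩⟩
  have hcard : d = Fintype.card (Fin d) := by simp
  constructor
  · have hpp' : IsPrimePow (Fintype.card (Fin d)) := by rwa [Fintype.card_fin]
    obtain ⟨fld⟩ := Fintype.nonempty_field_iff.mpr hpp'
    have hg := @aff_good (Fin d) (Fin d) fld (Equiv.refl _) _ _ d hcard hd2
    have hlim := good_lim _ d hcard hd2 hg
    refine ⟨groupOf (@affFam (Fin d) (Fin d) fld (Equiv.refl _)), groupOf_trans _, ?_⟩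
    have h1 : fpRatio (groupOf (@affFam (Fin d) (Fin d) fld (Equiv.refl _))) =
        (@affFam (Fin d) (Fin d) fld (Equiv.refl _)).P := by
      funext n; exact ratio_eq _ _ n (map_groupOf _ n)
    unfold IsFPP
    rw [h1]
    exact hlim
  · rintro c ⟨G, hG, hc⟩
    have hfam : fpRatio G = (famOf G hG).P := by
      funext n; exact ratio_eq G (famOf G hG) n rfl
    unfold IsFPP at hc
    rw [hfam] at hc
    exact (lim_le _ d hcard hd2 hc).1

/-- **Not every `α ∈ [0, α_d]` is a fixed-point proportion.** (1) For every prime power `d ≥ 3` the largest fixed-point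
proportion of a level-transitive group of automorphisms of the `d`-regular rooted tree is `α_d = (d² - d - 1) / (d² - 1)`, and the
whole open interval `((d-2)/(d-1) - ε_d, (d-2)/(d-1))`, `ε_d = 1 / ((d-1) (d!)^(d+1))`, lies inside `[0, α_d]` and contains
no fixed-point proportion. (2) For all `d ≥ 3` no fixed-point proportion lies in this interval. -/
theorem result :
    (∀ d : ℕ, IsPrimePow d → 3 ≤ d → ∃ α ε : ℝ, IsGreatest (fppSet d) α ∧
      α = ((d : ℝ) ^ 2 - d - 1) / ((d : ℝ) ^ 2 - 1) ∧ ε = 1 / (((d : ℝ) - 1) * (d.factorial : ℝ) ^ (d + 1)) ∧ 0 < ε ∧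
      Set.Ioo (((d : ℝ) - 2) / ((d : ℝ) - 1) - ε) (((d : ℝ) - 2) / ((d : ℝ) - 1)) ⊆ Set.Icc 0 α \ fppSet d) ∧
    ∀ d : ℕ, 3 ≤ d → ∀ c ∈ fppSet d,
      c ≤ ((d : ℝ) - 2) / ((d : ℝ) - 1) - 1 / (((d : ℝ) - 1) * (d.factorial : ℝ) ^ (d + 1)) ∨
        ((d : ℝ) - 2) / ((d : ℝ) - 1) ≤ c := by
  refine ⟨fun d hpp hd3 => ⟨_, _, max_eq d (by omega) hpp, rfl, rfl, ?_, ?_⟩, fun d hd3 c hc => ?_⟩
  · have h1 : (3 : ℝ) ≤ d := by exact_mod_cast hd3
    have h2 : (0 : ℝ) < (d.factorial : ℝ) := by exact_mod_cast d.factorial_pos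
    apply one_div_pos.2
    exact mul_pos (by linarith) (pow_pos h2 _)
  · have h1 : (3 : ℝ) ≤ d := by exact_mod_cast hd3
    have h2 : (1 : ℝ) ≤ (d.factorial : ℝ) := by exact_mod_cast d.factorial_pos
    have h3 : (1 : ℝ) ≤ (d.factorial : ℝ) ^ (d + 1) := one_le_pow₀ h2
    have hd1 : (0 : ℝ) < (d : ℝ) - 1 := by linarith
    intro c hc
    refine ⟨⟨?_, ?_⟩, fun hc' => ?_⟩
    · refine le_trans ?_ hc.1.le
      have h4 : 1 / (((d : ℝ) - 1) * (d.factorial : ℝ) ^ (d + 1)) ≤ 1 / ((d : ℝ) - 1) := by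
        apply one_div_le_one_div_of_le hd1
        nlinarith
      have h5 : 1 / ((d : ℝ) - 1) ≤ ((d : ℝ) - 2) / ((d : ℝ) - 1) := by
        rw [div_le_div_iff_of_pos_right hd1]
        linarith
      linarith
    · refine le_trans hc.2.le ?_
      rw [div_le_div_iff₀ hd1 (by nlinarith)]
      nlinarith
    · rcases main d hd3 c hc' with h | h
      · exact absurd hc.1 (not_lt.2 h)
      · exact absurd hc.2 (not_lt.2 h)
  · exact main d hd3 c hc

end Pool.Agent.Results.MP_7bf935_al.GapInTheValues
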